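import Pool.Agent.Y627.BC.Max

/-!
# Primitive elements of the Selberg class with `S_F` of maximal size

`S_F(x) = ∑_{p ≤ x} |a_F(p)|² / p` is `O(x^ε)` for every `ε > 0` by the Ramanujan axiom; we show that nothing better is
true for primitive `F`: for every function `ψ` which is `O(x^ε)` for every `ε > 0` there is a primitive `F` for which
`S_F / ψ` is unbounded.
-/

set_option autoImplicit false

open Filter Asymptotics

namespace Pool.Agent.Results.MP_8e9775_nt.MaximalGrowth

open Pool.Agent.H177R3.Lit (InS)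
open Pool.Agent.H177R3.Big (IsPrimitive SF)

/-- (1) `S_F(x) = O(x^ε)` for every element `F` of the Selberg class and every `ε > 0`.
(2) For every function `ψ` with `ψ(x) = O(x^ε)` for all `ε > 0` there is a primitive element `F` of the Selberg class
such that for every `K` the inequality `S_F(x) > K |ψ(x)|` holds for arbitrarily large `x`. -/
theorem result :
    (∀ a : ℕ → ℂ, InS a → ∀ ε : ℝ, 0 < ε → SF a =O[atTop] fun x : ℝ => x ^ ε) ∧
    ∀ ψ : ℝ → ℝ, (∀ ε : ℝ, 0 < ε → ψ =O[atTop] fun x : ℝ => x ^ ε) →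
      ∃ a : ℕ → ℂ, IsPrimitive a ∧ ∀ K X₀ : ℝ, ∃ x : ℝ, X₀ ≤ x ∧ K * |ψ x| < SF a x :=
  ⟨fun _ ha _ hε => Pool.Agent.Y627.BC.SF_upper ha.ram hε, fun _ hψ => Pool.Agent.Y627.BC.final_max hψ⟩

end Pool.Agent.Results.MP_8e9775_nt.MaximalGrowth
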